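import Mathlib

set_option autoImplicit false

/-! Bent functions on finite elementary abelian 2-groups: derivatives, transport, averages. -/

namespace Pool.Agent.Lib.MP09a217.CG

open Finset

/-- Sign of an element of the field with two elements. -/
def sg (z : ZMod 2) : ℤ := (-1) ^ z.val

lemma sg_zero : sg 0 = 1 := by simp [sg]

lemma sg_one : sg 1 = -1 := by decide

lemma sg_add : ∀ a b : ZMod 2, sg (a + b) = sg a * sg b := by decide

lemma sg_mul_self : ∀ a : ZMod 2, sg a * sg a = 1 := by decide

lemma sg_inj : ∀ a b : ZMod 2, sg a = sg b → a = b := by decide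

lemma sg_cases : ∀ a : ZMod 2, sg a = 1 ∨ sg a = -1 := by decide

lemma sg_eq_neg : ∀ a b : ZMod 2, sg a = - sg b → a = b + 1 := by decide

lemma add_self2 : ∀ a : ZMod 2, a + a = 0 := by decide

section General

variable {V : Type*} [AddCommGroup V] [Fintype V]

/-- Bent functions on a finite group, by derivatives. -/
def DB (f : V → ZMod 2) : Prop := ∀ a : V, a ≠ 0 → ∑ x, sg (f x + f (x + a)) = 0

/-- The number of bent functions. -/
noncomputable def bn (V : Type*) [AddCommGroup V] [Fintype V] : ℕ :=
  Nat.card {f : V → ZMod 2 // DB f}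

lemma DB.comp {V' : Type*} [AddCommGroup V'] [Fintype V'] {f : V → ZMod 2} (hf : DB f)
    (e : V' ≃+ V) : DB (fun x => f (e x)) := by
  intro a ha
  have h1 := hf (e a) (by simpa using ha)
  rw [← h1, ← Equiv.sum_comp e.toEquiv]
  apply Finset.sum_congr rfl
  intro x _
  simp

/-- Transport along an isomorphism. -/
lemma bn_congr {V' : Type*} [AddCommGroup V'] [Fintype V'] (e : V ≃+ V') : bn V = bn V' := by
  apply Nat.card_congr
  refine ⟨fun f => ⟨fun x => f.1 (e.symm x), f.2.comp e.symm⟩,
    fun f => ⟨fun x => f.1 (e x), f.2.comp e⟩, ?_, ?_⟩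
  · intro f
    apply Subtype.ext
    funext x
    simp
  · intro f
    apply Subtype.ext
    funext x
    simp

lemma bn_card {V' : Type*} [AddCommGroup V'] [Fintype V'] [Module (ZMod 2) V]
    [Module (ZMod 2) V'] (h : Fintype.card V = Fintype.card V') : bn V = bn V' := by
  have h1 : Module.finrank (ZMod 2) V = Module.finrank (ZMod 2) V' := by
    have e1 := Module.card_eq_pow_finrank (K := ZMod 2) (V := V)
    have e2 := Module.card_eq_pow_finrank (K := ZMod 2) (V := V')
    rw [e1, e2, ZMod.card] at h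
    exact Nat.pow_right_injective (le_refl 2) h
  obtain ⟨e⟩ := FiniteDimensional.nonempty_linearEquiv_of_finrank_eq h1
  exact bn_congr e.toAddEquiv

/-- The average of the squared sums over the cosets of a subgroup. -/
lemma avg {K : Type*} [AddCommGroup K] [Fintype K] {f : V → ZMod 2} (hf : DB f) (ι : K →+ V)
    (hι : Function.Injective ι) :
    ∑ v : V, (∑ a : K, sg (f (v + ι a))) ^ 2 = Fintype.card K * Fintype.card V := by
  classical
  have h1 : ∀ v : V, (∑ a : K, sg (f (v + ι a))) ^ 2 =
      ∑ a : K, ∑ b : K, sg (f (v + ι a) + f (v + ι b)) := by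
    intro v
    rw [sq, Finset.sum_mul]
    apply Finset.sum_congr rfl
    intro a _
    rw [Finset.mul_sum]
    apply Finset.sum_congr rfl
    intro b _
    rw [sg_add]
  simp only [h1]
  rw [Finset.sum_comm]
  have h2 : ∀ a : K, ∑ v : V, ∑ b : K, sg (f (v + ι a) + f (v + ι b)) = Fintype.card V := by
    intro a
    rw [Finset.sum_comm]
    rw [Finset.sum_eq_single a]
    · have : ∀ v : V, sg (f (v + ι a) + f (v + ι a)) = 1 := by
        intro v
        rw [add_self2, sg_zero]
      simp only [this]
      simp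
    · intro b _ hb
      have h3 := hf (ι (b - a)) (by
        intro h
        have : b - a = 0 := hι (by rw [h, map_zero])
        exact hb (sub_eq_zero.1 this))
      rw [← h3, ← Equiv.sum_comp (Equiv.addRight (ι a))
        (fun x => sg (f x + f (x + ι (b - a))))]
      apply Finset.sum_congr rfl
      intro v _
      simp only [Equiv.coe_addRight, map_sub]
      have e : v + ι a + (ι b - ι a) = v + ι b := by abel
      rw [e]
    · simp
  simp only [h2]
  simp

end General

section Units

variable {K : Type*} [Field K] [Fintype K] [DecidableEq K]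

lemma sum_units (F : K → ℤ) : ∑ a, F a = F 0 + ∑ u : Kˣ, F u := by
  rw [← Finset.add_sum_erase univ F (mem_univ 0)]
  congr 1
  symm
  apply Finset.sum_bij (fun (u : Kˣ) _ => (u : K))
  · intro u _
    simp
  · intro u _ v _ h
    exact Units.ext h
  · intro b hb
    have hb0 : b ≠ 0 := Finset.ne_of_mem_erase hb
    exact ⟨Units.mk0 b hb0, mem_univ _, rfl⟩
  · intro u _
    rfl

/-- Sums of invariant functions are divisible. -/
lemma sum_inv (H : Subgroup Kˣ) (F : Kˣ → ℤ) (hF : ∀ u : Kˣ, ∀ g ∈ H, F (u * g) = F u) :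
    (Nat.card H : ℤ) ∣ ∑ u, F u := by
  classical
  rw [← Finset.sum_fiberwise univ (fun u : Kˣ => (u : Kˣ ⧸ H)) F]
  apply Finset.dvd_sum
  intro q _
  have h1 : ∀ u ∈ univ.filter (fun u : Kˣ => (u : Kˣ ⧸ H) = q), F u = F (Quotient.out q) := by
    intro u hu
    have hu' : (u : Kˣ ⧸ H) = q := (Finset.mem_filter.1 hu).2
    have h2 : ((Quotient.out q : Kˣ) : Kˣ ⧸ H) = (u : Kˣ ⧸ H) := by
      rw [hu']; exact Quotient.out_eq q
    have h3 : (Quotient.out q)⁻¹ * u ∈ H := QuotientGroup.eq.1 h2
    have h4 := hF (Quotient.out q) _ h3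
    rw [mul_inv_cancel_left] at h4
    exact h4
  rw [Finset.sum_congr rfl h1, Finset.sum_const, nsmul_eq_mul]
  apply Dvd.dvd.mul_right
  have h5 : (univ.filter (fun u : Kˣ => (u : Kˣ ⧸ H) = q)).card = Nat.card H := by
    rw [Nat.card_eq_fintype_card, ← Finset.card_univ]
    symm
    apply Finset.card_bij (fun (h : H) _ => Quotient.out q * (h : Kˣ))
    · intro h _
      rw [Finset.mem_filter]
      refine ⟨mem_univ _, ?_⟩
      rw [QuotientGroup.mk_mul_of_mem _ h.2]
      exact Quotient.out_eq q
    · intro a _ b _ h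
      exact Subtype.ext (mul_left_cancel h)
    · intro u hu
      have hu' : (u : Kˣ ⧸ H) = q := (Finset.mem_filter.1 hu).2
      have h2 : ((Quotient.out q : Kˣ) : Kˣ ⧸ H) = (u : Kˣ ⧸ H) := by
        rw [hu']; exact Quotient.out_eq q
      exact ⟨⟨_, QuotientGroup.eq.1 h2⟩, mem_univ _, mul_inv_cancel_left _ _⟩
  rw [h5]

end Units

end Pool.Agent.Lib.MP09a217.CG
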