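import Pool.Agent.Lib.MP_09a217_co.Cong.Basic

set_option autoImplicit false

/-! The number of bent functions modulo odd numbers: groups of units of finite fields. -/

namespace Pool.Agent.Lib.MP09a217.CG

open Finset

/-- Free actions. -/
lemma dvd_of_free {G X : Type*} [Group G] [MulAction G X] [Finite X]
    (h : ∀ (g : G) (x : X), g • x = x → g = 1) : Nat.card G ∣ Nat.card X := by
  have e := MulAction.selfEquivOrbitsQuotientProd (G := G) (X := X) (fun b => by
    rw [eq_bot_iff]
    intro g hg
    exact h g b hg)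
  rw [Nat.card_congr e, Nat.card_prod]
  exact Dvd.intro_left _ rfl

section Field

variable {K : Type*} [Field K] [Fintype K] [DecidableEq K]
variable {U : Type*} [AddCommGroup U] [Fintype U]

/-- Multiplication by a unit in the first component. -/
def mulE (U : Type*) [AddCommGroup U] (g : Kˣ) : K × U ≃+ K × U :=
  AddEquiv.prodCongr (DistribMulAction.toAddEquiv K g) (AddEquiv.refl U)

omit [Fintype K] [DecidableEq K] [Fintype U] in
lemma mulE_apply (g : Kˣ) (x : K × U) : mulE U g x = ((g : K) * x.1, x.2) := rfl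

/-- Units act on the bent functions. -/
@[reducible] def unitsAct (K U : Type*) [Field K] [Fintype K] [AddCommGroup U] [Fintype U] :
    MulAction Kˣ {f : K × U → ZMod 2 // DB f} where
  smul g f := ⟨fun x => f.1 (mulE U g x), f.2.comp (mulE U g)⟩
  one_smul f := by
    apply Subtype.ext
    funext x
    change f.1 (mulE U 1 x) = f.1 x
    rw [mulE_apply]
    simp
  mul_smul g h f := by
    apply Subtype.ext
    funext x
    change f.1 (mulE U (g * h) x) = f.1 (mulE U h (mulE U g x))
    rw [mulE_apply, mulE_apply, mulE_apply]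
    simp only [Units.val_mul]
    rw [mul_left_comm, mul_assoc]

lemma orderOf_dvd_sum (g : Kˣ) (F : Kˣ → ℤ) (hF : ∀ u, F (u * g) = F u) :
    (orderOf g : ℤ) ∣ ∑ u, F u := by
  rw [← Nat.card_zpowers]
  apply sum_inv
  intro u w hw
  obtain ⟨i, rfl⟩ := Subgroup.mem_zpowers_iff.1 hw
  clear hw
  have hnat : ∀ (j : ℕ) (u : Kˣ), F (u * g ^ j) = F u := by
    intro j
    induction j with
    | zero => intro u; simp
    | succ j ih => intro u; rw [pow_succ, ← mul_assoc, hF, ih]
  have h1 : ∃ j : ℕ, g ^ i = g ^ j := by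
    refine ⟨(i % (orderOf g : ℤ)).toNat, ?_⟩
    have h2 : 0 ≤ i % (orderOf g : ℤ) := Int.emod_nonneg _ (by
      exact_mod_cast (orderOf_pos g).ne')
    rw [← zpow_natCast, Int.toNat_of_nonneg h2, zpow_mod_orderOf]
  obtain ⟨j, hj⟩ := h1
  rw [hj]
  exact hnat j u

/-- The unit group acts freely if the complement has two elements. -/
theorem units_dvd : Nat.card Kˣ ∣ bn (K × ZMod 2) := by
  let _ := unitsAct K (ZMod 2)
  apply dvd_of_free (G := Kˣ) (X := {f : K × ZMod 2 → ZMod 2 // DB f})
  intro g f hg
  have h1 : ∀ x : K × ZMod 2, f.1 ((g : K) * x.1, x.2) = f.1 x := by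
    intro x
    exact congrFun (congrArg Subtype.val hg) x
  have h2 := f.2 (0, 1) (by simp)
  rw [Fintype.sum_prod_type] at h2
  have h3 : ∀ x : K, ∑ z : ZMod 2, sg (f.1 (x, z) + f.1 ((x, z) + (0, 1))) =
      2 * sg (f.1 (x, 0) + f.1 (x, 1)) := by
    intro x
    have : (univ : Finset (ZMod 2)) = {0, 1} := rfl
    rw [this, Finset.sum_pair (by decide)]
    have e1 : ((x, 0) : K × ZMod 2) + (0, 1) = (x, 1) := by simp
    have e2 : ((x, 1) : K × ZMod 2) + (0, 1) = (x, 0) := by
      rw [Prod.mk_add_mk, add_zero]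
      rfl
    rw [e1, e2, add_comm (f.1 (x, 1))]
    ring
  simp only [h3] at h2
  rw [← Finset.mul_sum] at h2
  have h4 : ∑ x : K, sg (f.1 (x, 0) + f.1 (x, 1)) = 0 := by linarith
  rw [sum_units] at h4
  have h5 := orderOf_dvd_sum g (fun u : Kˣ => sg (f.1 ((u : K), 0) + f.1 ((u : K), 1))) (by
    intro u
    have e : ∀ z : ZMod 2, f.1 (((u * g : Kˣ) : K), z) = f.1 ((u : K), z) := by
      intro z
      have := h1 ((u : K), z)
      simp only at this
      rw [← this, Units.val_mul, mul_comm]
    simp only [e])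
  have h6 : (orderOf g : ℤ) ∣ 1 := by
    rcases sg_cases (f.1 (0, 0) + f.1 (0, 1)) with h | h
    · have : (1 : ℤ) = -∑ u : Kˣ, sg (f.1 ((u : K), 0) + f.1 ((u : K), 1)) := by
        rw [h] at h4; linarith
      rw [this]; exact h5.neg_right
    · have : (1 : ℤ) = ∑ u : Kˣ, sg (f.1 ((u : K), 0) + f.1 ((u : K), 1)) := by
        rw [h] at h4; linarith
      rw [this]; exact h5
  have h7 : orderOf g = 1 := by
    have := Int.eq_one_of_dvd_one (Int.natCast_nonneg _) h6
    exact_mod_cast this
  exact orderOf_eq_one_iff.1 h7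

/-- A large prime divisor of the number of units divides the number of bent functions. -/
theorem prime_dvd {p : ℕ} (hp : p.Prime) (hpK : p ∣ Fintype.card K - 1)
    (hlt : Fintype.card K < (p - 1) ^ 2) (heven : Even (Fintype.card K)) :
    p ∣ bn (K × U) := by
  have : Fact p.Prime := ⟨hp⟩
  have hcard : Fintype.card Kˣ = Fintype.card K - 1 := Fintype.card_units K
  obtain ⟨g, hg⟩ := exists_prime_orderOf_dvd_card p (G := Kˣ) (by rw [hcard]; exact hpK)
  let _ := unitsAct K U
  have hH : IsPGroup p (Subgroup.zpowers g) := by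
    apply IsPGroup.of_card (n := 1)
    rw [Nat.card_zpowers, hg, pow_one]
  have h1 := hH.card_modEq_card_fixedPoints {f : K × U → ZMod 2 // DB f}
  have h2 : Nat.card (MulAction.fixedPoints (Subgroup.zpowers g)
      {f : K × U → ZMod 2 // DB f}) = 0 := by
    rw [Nat.card_eq_zero]
    left
    constructor
    rintro ⟨f, hf⟩
    have h3 : ∀ x : K × U, f.1 ((g : K) * x.1, x.2) = f.1 x := by
      intro x
      have h4 := hf ⟨g, Subgroup.mem_zpowers g⟩
      exact congrFun (congrArg Subtype.val h4) x
    have hav := avg f.2 (AddMonoidHom.inl K U) (by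
      intro a b h
      simpa using h)
    have h5 : ∀ v : K × U, ((p : ℤ) - 1) ^ 2 ≤
        (∑ a : K, sg (f.1 (v + AddMonoidHom.inl K U a))) ^ 2 := by
      rintro ⟨c, v⟩
      have e1 : ∑ a : K, sg (f.1 ((c, v) + AddMonoidHom.inl K U a)) =
          ∑ a : K, sg (f.1 (a, v)) := by
        rw [← Equiv.sum_comp (Equiv.addLeft c) (fun a => sg (f.1 (a, v)))]
        apply Finset.sum_congr rfl
        intro a _
        simp
      rw [e1, sum_units]
      obtain ⟨t, ht⟩ := orderOf_dvd_sum g (fun u : Kˣ => sg (f.1 ((u : K), v))) (by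
        intro u
        have := h3 ((u : K), v)
        simp only at this
        rw [← this, Units.val_mul, mul_comm])
      rw [hg] at ht
      -- parity
      have hodd : Odd (∑ u : Kˣ, sg (f.1 ((u : K), v))) := by
        have e2 : ∀ z : ZMod 2, ∃ w : ℤ, sg z = 1 + 2 * w := by
          intro z
          rcases sg_cases z with h | h
          · exact ⟨0, by rw [h]; ring⟩
          · exact ⟨-1, by rw [h]; ring⟩
        choose w hw using e2
        simp only [hw]
        rw [Finset.sum_add_distrib, ← Finset.mul_sum]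
        simp only [Finset.sum_const, Finset.card_univ, nsmul_eq_mul, mul_one]
        rw [hcard]
        have hpos : 0 < Fintype.card K := Fintype.card_pos
        obtain ⟨r, hr⟩ := heven
        have e3 : ((Fintype.card K - 1 : ℕ) : ℤ) = 2 * ((r : ℤ) - 1) + 1 := by
          have : 1 ≤ Fintype.card K := hpos
          push_cast [this]
          rw [hr]; push_cast; ring
        rw [e3]
        exact ⟨(r : ℤ) - 1 + ∑ x : Kˣ, w (f.1 ((x : K), v)), by ring⟩
      have ht0 : t ≠ 0 := by
        rintro rfl
        rw [ht, mul_zero] at hodd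
        exact absurd hodd (by decide)
      rw [ht]
      have hp2 : (2 : ℤ) ≤ p := by exact_mod_cast hp.two_le
      have ht1 : 1 ≤ |t| := Int.one_le_abs ht0
      have h6 : (p : ℤ) - 1 ≤ |sg (f.1 (0, v)) + p * t| := by
        have e4 : |(p : ℤ) * t| = p * |t| := by
          rw [abs_mul, abs_of_nonneg (by linarith)]
        have e5 : |sg (f.1 (0, v))| = 1 := by
          rcases sg_cases (f.1 (0, v)) with h | h <;> rw [h] <;> simp
        have e6 := abs_sub_abs_le_abs_sub ((p : ℤ) * t) (-sg (f.1 (0, v)))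
        rw [abs_neg, e4, e5, sub_neg_eq_add, add_comm ((p : ℤ) * t)] at e6
        nlinarith
      rw [← sq_abs (sg (f.1 (0, v)) + p * t)]
      exact pow_le_pow_left₀ (by linarith) h6 2
    have h7 := Finset.sum_le_sum (fun v (_ : v ∈ (univ : Finset (K × U))) => h5 v)
    rw [hav, Finset.sum_const, Finset.card_univ, nsmul_eq_mul] at h7
    have hpos : (0 : ℤ) < Fintype.card (K × U) := by exact_mod_cast Fintype.card_pos
    have h8 : ((p : ℤ) - 1) ^ 2 ≤ Fintype.card K := by
      by_contra hc
      push Not at hc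
      nlinarith
    have h9 : ((p - 1 : ℕ) : ℤ) = (p : ℤ) - 1 := by
      have := hp.one_le
      push_cast [this]; ring
    have h10 : ((Fintype.card K : ℕ) : ℤ) < ((p : ℤ) - 1) ^ 2 := by
      rw [← h9]; exact_mod_cast hlt
    linarith
  rw [h2] at h1
  exact (Nat.modEq_zero_iff_dvd).1 h1

end Field

end Pool.Agent.Lib.MP09a217.CG
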