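import Pool.Agent.Lib.MP_09a217_co.Cong.Walsh

set_option autoImplicit false

/-! Orbits of the group of translations and complementation. -/

namespace Pool.Agent.Lib.MP09a217.CG

open Finset

/-- Weighted counting by orbits. -/
lemma orbit_sum {G Y : Type*} [Group G] [Fintype Y] [MulAction G Y] (F : Y → ℕ)
    (hF : ∀ (g : G) (y : Y), F (g • y) = F y) (D : ℕ)
    (h : ∀ y, F y ≠ 0 → D ∣ (MulAction.orbit G y).ncard * F y) : D ∣ ∑ y, F y := by
  classical
  let π : Y → MulAction.orbitRel.Quotient G Y := fun y => Quotient.mk _ y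
  rw [← Finset.sum_fiberwise univ π F]
  apply Finset.dvd_sum
  intro q _
  induction q using Quotient.inductionOn with
  | h y =>
    have h1 : ∀ z : Y, π z = π y ↔ z ∈ MulAction.orbit G y := by
      intro z
      exact Quotient.eq (r := MulAction.orbitRel G Y)
    have h2 : ∀ z ∈ univ.filter (fun z => π z = Quotient.mk _ y), F z = F y := by
      intro z hz
      obtain ⟨g, rfl⟩ := (h1 z).1 (Finset.mem_filter.1 hz).2
      exact hF g y
    rw [Finset.sum_congr rfl h2, Finset.sum_const, smul_eq_mul]
    have h3 : (univ.filter (fun z => π z = Quotient.mk _ y)).card =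
        (MulAction.orbit G y).ncard := by
      rw [← Set.ncard_coe_finset]
      congr 1
      ext z
      simp only [Finset.coe_filter, Finset.mem_univ, true_and, Set.mem_ofPred_eq]
      exact h1 z
    rw [h3]
    by_cases h0 : F y = 0
    · rw [h0, mul_zero]
      exact dvd_zero _
    · exact h y h0

variable {N : ℕ}

lemma parseval (f : (Fin N → ZMod 2) → ZMod 2) : ∑ y, W f y ^ 2 = 4 ^ N := by
  have h1 : ∀ y, W f y ^ 2 = ∑ a, sg (dot y a) * ac f a := W_sq f
  simp only [h1]
  rw [Finset.sum_comm]
  simp only [← Finset.sum_mul, char_sum]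
  rw [Finset.sum_eq_single 0]
  · rw [if_pos rfl, ac_zero, ← mul_pow]
    norm_num
  · intro b _ hb
    rw [if_neg hb, zero_mul]
  · simp

/-- Translations and complementation. -/
@[reducible] def trAct (N : ℕ) : MulAction (Multiplicative ((Fin N → ZMod 2) × ZMod 2))
    ((Fin N → ZMod 2) → ZMod 2) where
  smul g f := fun x => f (x + g.toAdd.1) + g.toAdd.2
  one_smul f := by
    funext x
    change f (x + 0) + 0 = f x
    rw [add_zero, add_zero]
  mul_smul g h f := by
    funext x
    change f (x + (g.toAdd.1 + h.toAdd.1)) + (g.toAdd.2 + h.toAdd.2) =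
      f (x + g.toAdd.1 + h.toAdd.1) + h.toAdd.2 + g.toAdd.2
    rw [add_assoc x, add_assoc, add_comm g.toAdd.2]

/-- The value of a character. -/
def chv (y : Fin N → ZMod 2) (g : Multiplicative ((Fin N → ZMod 2) × ZMod 2)) : ℤ :=
  sg (g.toAdd.2 + dot y g.toAdd.1)

lemma chv_mul (y : Fin N → ZMod 2) (g h : Multiplicative ((Fin N → ZMod 2) × ZMod 2)) :
    chv y (g * h) = chv y g * chv y h := by
  rw [chv, chv, chv, ← sg_add, toAdd_mul, Prod.fst_add, Prod.snd_add, dot_add_right]
  congr 1
  ring

lemma W_tr (f : (Fin N → ZMod 2) → ZMod 2) (m : Fin N → ZMod 2) (e : ZMod 2)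
    (y : Fin N → ZMod 2) : W (fun x => f (x + m) + e) y = sg (e + dot y m) * W f y := by
  rw [W, W, Finset.mul_sum, sum_shift (fun x => sg (e + dot y m) * sg (f x + dot y x)) m]
  apply Finset.sum_congr rfl
  intro x _
  rw [← sg_add, dot_add_right]
  congr 1
  have : e + dot y m + (f (x + m) + (dot y x + dot y m)) =
    f (x + m) + e + dot y x + (dot y m + dot y m) := by ring
  rw [this, add_self2, add_zero]

/-- The stabiliser of a function with small Walsh coefficients is small. -/
theorem stab_le (f : (Fin N → ZMod 2) → ZMod 2) (s : ℕ) (hf : ∀ y, W f y ^ 2 * 4 ^ s ≤ 4 ^ N)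
    (H : Subgroup (Multiplicative ((Fin N → ZMod 2) × ZMod 2)))
    (hH : ∀ g ∈ H, (fun x => f (x + g.toAdd.1) + g.toAdd.2) = f) :
    Nat.card H * 4 ^ s ≤ 2 ^ N := by
  classical
  set I : (Fin N → ZMod 2) → ℤ := fun y => ∑ g : H, chv y g with hI
  have hI1 : ∀ y, 0 ≤ I y := by
    intro y
    by_cases h : ∃ g : H, chv y g = -1
    · obtain ⟨g, hg⟩ := h
      have h1 : I y = ∑ h : H, chv y ((g * h : H)) := by
        rw [hI]
        exact (Equiv.sum_comp (Equiv.mulLeft g) (fun h : H => chv y h)).symm
      have h2 : ∀ h : H, chv y ((g * h : H)) = - chv y h := by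
        intro h
        rw [Subgroup.coe_mul, chv_mul, hg]
        ring
      simp only [h2] at h1
      rw [Finset.sum_neg_distrib] at h1
      change I y = - I y at h1
      linarith
    · push Not at h
      apply Finset.sum_nonneg
      intro g _
      rcases sg_cases ((g : Multiplicative ((Fin N → ZMod 2) × ZMod 2)).toAdd.2 +
        dot y (g : Multiplicative ((Fin N → ZMod 2) × ZMod 2)).toAdd.1) with h1 | h1
      · rw [chv, h1]; norm_num
      · exact absurd h1 (h g)
  have hI2 : ∑ y, I y = 2 ^ N := by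
    rw [hI, Finset.sum_comm]
    have h1 : ∀ g : H, ∑ y : Fin N → ZMod 2, chv y g = if g = 1 then 2 ^ N else 0 := by
      intro g
      simp only [chv, sg_add]
      rw [← Finset.mul_sum, char_sum]
      split_ifs with h1 h2 h2
      · rw [h2]
        simp [sg_zero]
      · exfalso
        apply h2
        have h3 := congrFun (hH g g.2) 0
        simp only [h1, add_zero] at h3
        have h4 : (g : Multiplicative ((Fin N → ZMod 2) × ZMod 2)).toAdd.2 = 0 := by
          simpa using h3
        apply Subtype.ext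
        exact Prod.ext h1 h4
      · exfalso
        apply h1
        rw [h2]
        rfl
      · rw [mul_zero]
    simp only [h1]
    simp
  have hI3 : ∀ y, (Nat.card H : ℤ) * W f y ^ 2 = I y * W f y ^ 2 := by
    intro y
    by_cases h0 : W f y = 0
    · rw [h0]; ring
    · congr 1
      have h1 : ∀ g : H, chv y g = 1 := by
        intro g
        have h2 := W_tr f (g : Multiplicative ((Fin N → ZMod 2) × ZMod 2)).toAdd.1
          (g : Multiplicative ((Fin N → ZMod 2) × ZMod 2)).toAdd.2 y
        rw [hH g g.2] at h2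
        have h3 : (chv y g - 1) * W f y = 0 := by
          rw [chv]
          linarith
        rcases mul_eq_zero.1 h3 with h4 | h4
        · linarith
        · exact absurd h4 h0
      simp only [hI, h1]
      simp
  have h1 : (Nat.card H : ℤ) * 4 ^ s * 4 ^ N ≤ 2 ^ N * 4 ^ N := by
    have h2 : (Nat.card H : ℤ) * 4 ^ N = ∑ y, I y * W f y ^ 2 := by
      rw [← parseval f, Finset.mul_sum]
      exact Finset.sum_congr rfl (fun y _ => hI3 y)
    have h3 : (∑ y, I y * W f y ^ 2) * 4 ^ s ≤ ∑ y, I y * 4 ^ N := by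
      rw [Finset.sum_mul]
      apply Finset.sum_le_sum
      intro y _
      rw [mul_assoc]
      exact mul_le_mul_of_nonneg_left (hf y) (hI1 y)
    rw [← Finset.sum_mul, hI2, ← h2] at h3
    linarith
  have h4 : (0 : ℤ) < 4 ^ N := by positivity
  have h5 := le_of_mul_le_mul_right h1 h4
  exact_mod_cast h5

/-- Weighted sums over functions with small Walsh coefficients. -/
theorem ker_dvd (s t : ℕ) (v : ((Fin N → ZMod 2) → ZMod 2) → ℕ)
    (hv : ∀ m e f, v (fun x => f (x + m) + e) = v f)
    (hw : ∀ f, v f ≠ 0 → ∀ y, W f y ^ 2 * 4 ^ s ≤ 4 ^ N) (ht : ∀ f, 2 ^ t ∣ v f) :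
    2 ^ (t + 1 + 2 * s) ∣ ∑ f, v f := by
  classical
  let _ := trAct N
  apply orbit_sum (G := Multiplicative ((Fin N → ZMod 2) × ZMod 2)) v
  · intro g f
    exact hv _ _ f
  · intro f hf
    set H := MulAction.stabilizer (Multiplicative ((Fin N → ZMod 2) × ZMod 2)) f with hHdef
    have h1 : Nat.card H * 4 ^ s ≤ 2 ^ N := stab_le f s (hw f hf) H (by
      intro g hg
      exact hg)
    have h2 := H.card_mul_index
    rw [MulAction.index_stabilizer] at h2
    have h3 : Nat.card (Multiplicative ((Fin N → ZMod 2) × ZMod 2)) = 2 ^ (N + 1) := by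
      have : Nat.card ((Fin N → ZMod 2) × ZMod 2) = 2 ^ (N + 1) := by
        rw [Nat.card_prod, Nat.card_fun, Nat.card_zmod, Nat.card_fin, pow_succ]
      exact this
    rw [h3] at h2
    obtain ⟨j, hj, hj'⟩ := (Nat.dvd_prime_pow Nat.prime_two).1 (Dvd.intro _ h2)
    rw [hj'] at h1 h2
    have h4 : j + 2 * s ≤ N := by
      have e : (4 : ℕ) ^ s = 2 ^ (2 * s) := by
        rw [pow_mul]; norm_num
      rw [e, ← pow_add] at h1
      exact (Nat.pow_le_pow_iff_right (by norm_num)).1 h1
    have h5 : (MulAction.orbit (Multiplicative ((Fin N → ZMod 2) × ZMod 2)) f).ncard =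
        2 ^ (N + 1 - j) := by
      have e : 2 ^ (N + 1) = 2 ^ j * 2 ^ (N + 1 - j) := by
        rw [← pow_add]
        congr 1
        omega
      rw [e] at h2
      exact Nat.eq_of_mul_eq_mul_left (by positivity) h2
    rw [h5, show t + 1 + 2 * s = (1 + 2 * s) + t by ring, pow_add]
    exact mul_dvd_mul (pow_dvd_pow 2 (by omega)) (ht f)

end Pool.Agent.Lib.MP09a217.CG
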