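import Pool.Agent.Lib.MP_09a217_co.Cong.Orb

set_option autoImplicit false

/-! Powers of two dividing the number of functions with small Walsh coefficients. -/

namespace Pool.Agent.Lib.MP09a217.CG

open Finset

/-- Boolean functions. -/
abbrev Fn (N : ℕ) := (Fin N → ZMod 2) → ZMod 2

/-- Gluing two functions along the first coordinate. -/
def glue {N : ℕ} (f g : Fn N) : Fn (N + 1) :=
  fun x => if x 0 = 0 then f (Fin.tail x) else g (Fin.tail x)

/-- Restriction to a half-space. -/
def part {N : ℕ} (b : ZMod 2) (f : Fn (N + 1)) : Fn N := fun x => f (Fin.cons b x)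

lemma part_zero {N : ℕ} (f g : Fn N) : part 0 (glue f g) = f := by
  funext x
  simp [part, glue]

lemma part_one {N : ℕ} (f g : Fn N) : part 1 (glue f g) = g := by
  funext x
  simp [part, glue]

lemma glue_part {N : ℕ} (f : Fn (N + 1)) : glue (part 0 f) (part 1 f) = f := by
  funext x
  simp only [glue, part]
  split_ifs with h
  · rw [← h, Fin.cons_self_tail]
  · have h1 : x 0 = 1 := ne_zero_one _ h
    rw [← h1, Fin.cons_self_tail]

/-- Functions on the space are pairs of functions on half-spaces. -/
def glueE (N : ℕ) : Fn N × Fn N ≃ Fn (N + 1) where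
  toFun p := glue p.1 p.2
  invFun f := (part 0 f, part 1 f)
  left_inv p := Prod.ext (part_zero p.1 p.2) (part_one p.1 p.2)
  right_inv f := glue_part f

lemma sum_glue {N : ℕ} (w : Fn (N + 1) → ℕ) : ∑ f, w f = ∑ f, ∑ g, w (glue f g) := by
  rw [← Equiv.sum_comp (glueE N) w, Fintype.sum_prod_type]
  rfl

lemma dot_cons {N : ℕ} (b c : ZMod 2) (y x : Fin N → ZMod 2) :
    dot (Fin.cons b y : Fin (N + 1) → ZMod 2) (Fin.cons c x) = b * c + dot y x := by
  simp [dot, Fin.sum_univ_succ]

lemma W_glue {N : ℕ} (f g : Fn N) (b : ZMod 2) (y : Fin N → ZMod 2) :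
    W (glue f g) (Fin.cons b y) = W f y + sg b * W g y := by
  rw [W, ← Equiv.sum_comp (Fin.consEquiv (fun _ => ZMod 2)), Fintype.sum_prod_type]
  have h2 : ∀ F : ZMod 2 → ℤ, ∑ a, F a = F 0 + F 1 := fun F => Fin.sum_univ_two F
  rw [h2]
  simp only [Fin.consEquiv, Equiv.coe_fn_mk]
  congr 1
  · rw [W]
    apply Finset.sum_congr rfl
    intro x _
    have e : glue f g (Fin.cons 0 x) = f x := congrFun (part_zero f g) x
    rw [e, dot_cons, mul_zero, zero_add]
  · rw [W, Finset.mul_sum]
    apply Finset.sum_congr rfl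
    intro x _
    have e : glue f g (Fin.cons 1 x) = g x := congrFun (part_one f g) x
    rw [e, dot_cons, mul_one, ← sg_add]
    congr 1
    ring

/-- The moves which preserve the Walsh spectrum. -/
inductive Mv : (N : ℕ) → (Fn N → Fn N) → Prop
  | neg : Mv 0 (fun f x => f x + 1)
  | ker {N : ℕ} (m : Fin N → ZMod 2) (e : ZMod 2) :
      Mv (N + 1) (fun f => glue (part 0 f) (fun x => part 1 f (x + m) + e))
  | diag {N : ℕ} {T : Fn N → Fn N} (h : Mv N T) :
      Mv (N + 1) (fun f => glue (T (part 0 f)) (T (part 1 f)))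

lemma Mv.invol {N : ℕ} {T : Fn N → Fn N} (h : Mv N T) (f : Fn N) : T (T f) = f := by
  induction h with
  | neg =>
    funext x
    have : ∀ a : ZMod 2, a + 1 + 1 = a := by decide
    exact this _
  | ker m e =>
    simp only [part_zero, part_one]
    have e1 : (fun x => part 1 f (x + m + m) + e + e) = part 1 f := by
      funext x
      rw [add_assoc x, vadd_self, add_zero, add_assoc, add_self2, add_zero]
    rw [e1, glue_part]
  | diag h ih =>
    simp only [part_zero, part_one]
    rw [ih, ih, glue_part]

lemma Mv.bij {N : ℕ} {T : Fn N → Fn N} (h : Mv N T) : Function.Bijective T :=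
  Function.Involutive.bijective h.invol

lemma Mv.walsh {N : ℕ} {T : Fn N → Fn N} (h : Mv N T) (y : Fin N → ZMod 2) :
    ∃ (y' : Fin N → ZMod 2) (s : ZMod 2), ∀ f, W (T f) y = sg s * W f y' := by
  induction h with
  | neg =>
    refine ⟨y, 1, fun f => ?_⟩
    rw [W, W, Finset.mul_sum]
    apply Finset.sum_congr rfl
    intro x _
    rw [← sg_add]
    congr 1
    ring
  | @ker N m e =>
    refine Fin.consCases (fun b y => ?_) y
    refine ⟨Fin.cons (b + (e + dot y m)) y, 0, fun f => ?_⟩
    conv_rhs => rw [← glue_part f]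
    rw [W_glue, W_glue, W_tr, sg_zero, one_mul, sg_add b]
    ring
  | @diag N T h ih =>
    refine Fin.consCases (fun b y => ?_) y
    obtain ⟨y', s, hy⟩ := ih y
    refine ⟨Fin.cons b y', s, fun f => ?_⟩
    conv_rhs => rw [← glue_part f]
    rw [W_glue, W_glue, hy, hy]
    ring

lemma W_sq_le {N : ℕ} (f : Fn N) (y : Fin N → ZMod 2) : W f y ^ 2 ≤ 4 ^ N := by
  rw [← parseval f]
  exact Finset.single_le_sum (f := fun y => W f y ^ 2) (fun y _ => sq_nonneg _)
    (Finset.mem_univ y)

/-- Weighted sums over functions with small Walsh coefficients. -/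
theorem pow_dvd (N : ℕ) : ∀ (r t : ℕ) (w : Fn N → ℕ),
    (∀ T, Mv N T → ∀ f, w (T f) = w f) →
    (∀ f, w f ≠ 0 → ∀ y, W f y ^ 2 * 4 ^ r ≤ 4 ^ N) → (∀ f, 2 ^ t ∣ w f) →
    2 ^ (t + N + 1 + r * (r - 1)) ∣ ∑ f, w f := by
  induction N with
  | zero =>
    intro r t w hT hr ht
    by_cases h0 : ∀ f, w f = 0
    · simp [h0]
    · push Not at h0
      obtain ⟨f, hf⟩ := h0
      have hr0 : r = 0 := by
        have h1 := hr f hf 0
        have h2 : ∑ y, W f y ^ 2 = 4 ^ 0 := parseval f
        have h3 : ∑ y, W f y ^ 2 = W f 0 ^ 2 := by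
          rw [Fintype.sum_unique]
          congr 1
        rw [← h3, h2] at h1
        by_contra hne
        obtain ⟨r', rfl⟩ := Nat.exists_eq_succ_of_ne_zero hne
        have h4 : (1 : ℤ) ≤ 4 ^ r' := one_le_pow₀ (by norm_num)
        rw [pow_succ] at h1
        norm_num at h1
        linarith
      subst hr0
      have h1 := ker_dvd 0 t w (fun m e f => by
        rcases ne_or_eq e 1 with he | rfl
        · have he0 : e = 0 := by
            revert he
            revert e
            decide
          subst he0
          congr 1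
          funext x
          rw [add_zero]
          congr 1
          exact Subsingleton.elim _ _
        · have h2 := hT _ Mv.neg f
          rw [← h2]
          congr 1
          funext x
          congr 2
          exact Subsingleton.elim _ _) (fun f _ y => by
        rw [pow_zero, mul_one]; exact W_sq_le f y) ht
      simpa using h1
  | succ N ih =>
    intro r t w hT hr ht
    rw [sum_glue]
    have hK : ∀ f g : Fn N, ∀ m e, w (glue f (fun x => g (x + m) + e)) = w (glue f g) := by
      intro f g m e
      have h1 := hT _ (Mv.ker m e) (glue f g)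
      simp only [part_zero, part_one] at h1
      exact h1
    have hD : ∀ T, Mv N T → ∀ f g : Fn N, w (glue (T f) (T g)) = w (glue f g) := by
      intro T h f g
      have h1 := hT _ (Mv.diag h) (glue f g)
      simp only [part_zero, part_one] at h1
      exact h1
    have hinv : ∀ T, Mv N T → ∀ f : Fn N, ∑ g, w (glue (T f) g) = ∑ g, w (glue f g) := by
      intro T h f
      rw [← Equiv.sum_comp (Equiv.ofBijective T h.bij) (fun g => w (glue (T f) g))]
      apply Finset.sum_congr rfl
      intro g _
      exact hD T h f g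
    rcases Nat.eq_zero_or_pos r with rfl | hpos
    · have h1 : ∀ f : Fn N, 2 ^ (t + 1) ∣ ∑ g, w (glue f g) := by
        intro f
        have h2 := ker_dvd 0 t (fun g => w (glue f g)) (fun m e g => hK f g m e)
          (fun g _ y => by rw [pow_zero, mul_one]; exact W_sq_le g y) (fun g => ht _)
        simpa using h2
      have h3 := ih 0 (t + 1) (fun f => ∑ g, w (glue f g)) hinv
        (fun f _ y => by rw [pow_zero, mul_one]; exact W_sq_le f y) h1
      have e : t + (N + 1) + 1 + 0 * (0 - 1) = t + 1 + N + 1 + 0 * (0 - 1) := by ring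
      rw [e]
      exact h3
    · obtain ⟨s, rfl⟩ : ∃ s, r = s + 1 := ⟨r - 1, by omega⟩
      have hb : ∀ f g : Fn N, w (glue f g) ≠ 0 → ∀ y,
          (W f y ^ 2 + W g y ^ 2) * 4 ^ s ≤ 4 ^ N := by
        intro f g hne y
        have h0 := hr _ hne (Fin.cons 0 y)
        have h1 := hr _ hne (Fin.cons 1 y)
        rw [W_glue, sg_zero, one_mul] at h0
        rw [W_glue, sg_one] at h1
        have e4 : (4 : ℤ) ^ (s + 1) = 4 * 4 ^ s := by ring
        have e5 : (4 : ℤ) ^ (N + 1) = 4 * 4 ^ N := by ring
        rw [e4, e5] at h0 h1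
        nlinarith
      have h4s : (0 : ℤ) < 4 ^ s := by positivity
      have h1 : ∀ f : Fn N, 2 ^ (t + 1 + 2 * s) ∣ ∑ g, w (glue f g) := by
        intro f
        exact ker_dvd s t (fun g => w (glue f g)) (fun m e g => hK f g m e)
          (fun g hg y => by
            have h2 := hb f g hg y
            have h3 := mul_nonneg (sq_nonneg (W f y)) h4s.le
            nlinarith) (fun g => ht _)
      have h3 := ih s (t + 1 + 2 * s) (fun f => ∑ g, w (glue f g)) hinv (fun f hf y => by
        obtain ⟨g, _, hg⟩ := Finset.exists_ne_zero_of_sum_ne_zero hf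
        have h2 := hb f g hg y
        have h3 := mul_nonneg (sq_nonneg (W g y)) h4s.le
        nlinarith) h1
      have e : t + (N + 1) + 1 + (s + 1) * (s + 1 - 1) = t + 1 + 2 * s + N + 1 + s * (s - 1) := by
        rcases Nat.eq_zero_or_pos s with rfl | hs
        · ring
        · obtain ⟨u, rfl⟩ : ∃ u, s = u + 1 := ⟨s - 1, by omega⟩
          simp only [Nat.add_sub_cancel]
          ring
      rw [e]
      exact h3

end Pool.Agent.Lib.MP09a217.CG
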