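import Pool.Agent.Lib.MP_09a217_co.Cong.Basic

set_option autoImplicit false

/-! The Walsh criterion for binary vectors. -/

namespace Pool.Agent.Lib.MP09a217.CG

open Finset

variable {n : ℕ}

/-- The dot product. -/
def dot (y x : Fin n → ZMod 2) : ZMod 2 := ∑ i, y i * x i

lemma dot_add_right (y x x' : Fin n → ZMod 2) : dot y (x + x') = dot y x + dot y x' := by
  simp only [dot, Pi.add_apply, mul_add, Finset.sum_add_distrib]

lemma dot_add_left (y y' x : Fin n → ZMod 2) : dot (y + y') x = dot y x + dot y' x := by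
  simp only [dot, Pi.add_apply, add_mul, Finset.sum_add_distrib]

lemma dot_zero_right (y : Fin n → ZMod 2) : dot y 0 = 0 := by simp [dot]

lemma dot_zero_left (x : Fin n → ZMod 2) : dot 0 x = 0 := by simp [dot]

lemma dot_comm (y x : Fin n → ZMod 2) : dot y x = dot x y := by
  simp only [dot, mul_comm]

lemma dot_single (y : Fin n → ZMod 2) (i : Fin n) : dot y (Pi.single i 1) = y i := by
  simp [dot, Pi.single_apply]

lemma vadd_self (x : Fin n → ZMod 2) : x + x = 0 := by
  funext i; simp [add_self2]

lemma ne_zero_one : ∀ z : ZMod 2, z ≠ 0 → z = 1 := by decide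

lemma sum_shift {M : Type*} [AddCommGroup M] [Fintype M] (F : M → ℤ) (a : M) :
    ∑ y, F y = ∑ y, F (y + a) :=
  (Equiv.sum_comp (Equiv.addRight a) F).symm

lemma sum_shift' {M : Type*} [AddCommGroup M] [Fintype M] (F : M → ℤ) (a : M) :
    ∑ y, F y = ∑ y, F (a + y) :=
  (Equiv.sum_comp (Equiv.addLeft a) F).symm

lemma char_sum (a : Fin n → ZMod 2) :
    ∑ y : Fin n → ZMod 2, sg (dot y a) = if a = 0 then 2 ^ n else 0 := by
  split_ifs with h
  · subst h
    simp only [dot_zero_right, sg_zero]
    simp [ZMod.card]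
  · obtain ⟨i, hi⟩ : ∃ i, a i ≠ 0 := by
      by_contra h'
      push Not at h'
      exact h (funext h')
    have h1 := sum_shift (fun y : Fin n → ZMod 2 => sg (dot y a)) (Pi.single i 1)
    have h2 : ∀ y : Fin n → ZMod 2, sg (dot (y + Pi.single i 1) a) = - sg (dot y a) := by
      intro y
      rw [dot_add_left, dot_comm (Pi.single i 1), dot_single, ne_zero_one _ hi, sg_add, sg_one]
      ring
    simp only [h2, Finset.sum_neg_distrib] at h1
    linarith

/-- Walsh transform. -/
def W (f : (Fin n → ZMod 2) → ZMod 2) (y : Fin n → ZMod 2) : ℤ := ∑ x, sg (f x + dot y x)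

/-- Autocorrelation. -/
def ac (f : (Fin n → ZMod 2) → ZMod 2) (a : Fin n → ZMod 2) : ℤ := ∑ x, sg (f x + f (x + a))

lemma W_sq (f : (Fin n → ZMod 2) → ZMod 2) (y : Fin n → ZMod 2) :
    W f y ^ 2 = ∑ a, sg (dot y a) * ac f a := by
  have h1 : ∀ a, sg (dot y a) * ac f a = ∑ x, sg (f x + dot y x) * sg (f (x + a) + dot y (x + a)) := by
    intro a
    rw [ac, Finset.mul_sum]
    apply Finset.sum_congr rfl
    intro x _
    rw [← sg_add, ← sg_add]
    congr 1
    rw [dot_add_right]
    have : f x + dot y x + (f (x + a) + (dot y x + dot y a)) =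
      dot y a + (f x + f (x + a)) + (dot y x + dot y x) := by ring
    rw [this, add_self2, add_zero]
  simp only [h1]
  rw [Finset.sum_comm, sq, W, Finset.sum_mul]
  apply Finset.sum_congr rfl
  intro x _
  rw [Finset.mul_sum]
  exact sum_shift' (fun z => sg (f x + dot y x) * sg (f z + dot y z)) x

lemma ac_zero (f : (Fin n → ZMod 2) → ZMod 2) : ac f 0 = 2 ^ n := by
  simp only [ac, add_zero, add_self2, sg_zero]
  simp [ZMod.card]

theorem db_iff (f : (Fin n → ZMod 2) → ZMod 2) : DB f ↔ ∀ y, W f y ^ 2 = 2 ^ n := by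
  constructor
  · intro hf y
    rw [W_sq, Finset.sum_eq_single 0]
    · rw [dot_zero_right, sg_zero, one_mul, ac_zero]
    · intro a _ ha
      have : ac f a = 0 := hf a ha
      rw [this, mul_zero]
    · simp
  · intro hW a ha
    change ac f a = 0
    have h1 : ∑ y : Fin n → ZMod 2, sg (dot y a) * W f y ^ 2 = 0 := by
      simp only [hW]
      rw [← Finset.sum_mul, char_sum, if_neg ha, zero_mul]
    have h2 : ∑ y : Fin n → ZMod 2, sg (dot y a) * W f y ^ 2 = 2 ^ n * ac f a := by
      have h3 : ∀ y : Fin n → ZMod 2, sg (dot y a) * W f y ^ 2 =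
          ∑ b, sg (dot y (a + b)) * ac f b := by
        intro y
        rw [W_sq, Finset.mul_sum]
        apply Finset.sum_congr rfl
        intro b _
        rw [dot_add_right, sg_add]
        ring
      simp only [h3]
      rw [Finset.sum_comm]
      simp only [← Finset.sum_mul, char_sum]
      rw [Finset.sum_eq_single a]
      · rw [vadd_self, if_pos rfl]
      · intro b _ hb
        rw [if_neg, zero_mul]
        intro h
        apply hb
        have : a + b + b = 0 + b := by rw [h]
        rw [add_assoc, vadd_self, add_zero, zero_add] at this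
        exact this.symm
      · simp
    rw [h2] at h1
    have : (2 : ℤ) ^ n ≠ 0 := by positivity
    exact (mul_eq_zero.1 h1).resolve_left this

end Pool.Agent.Lib.MP09a217.CG
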